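import Pool.Agent.E8helper81.GZ.Stm
import Pool.Agent.E8helper81.GZ.Tau

/-! Project GZ, piece A: the sum of `τ_χ` with error term. -/

set_option autoImplicit false

namespace Pool.Agent.E8helper26.GZ

open Finset Pool.Agent.E8helper22.SZ Pool.Agent.E8helper81.GZ

lemma interval_abs {q : ℕ} [NeZero q] {χ : DirichletCharacter ℂ q} (hχ1 : χ ≠ 1) (D M : ℕ) :
    |∑ d ∈ Ioc D M, cv χ d| ≤ 2 * q := by
  have h1 := Pool.Agent.Erdos456.norm_interval_le χ hχ1 (D + 1) (M - D)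
  have h2 : ∑ d ∈ Ioc D M, cv χ d = (∑ i ∈ range (M - D), χ ((D + 1 + i : ℕ) : ZMod q)).re := by
    rw [Complex.re_sum, ← Finset.Ico_succ_succ_eq_Ioc]
    rw [sum_Ico_eq_sum_range]
    have h3 : M.succ - D.succ = M - D := by omega
    simp only [Nat.succ_eq_succ, Nat.succ_eq_add_one] at *
    rw [show M + 1 - (D + 1) = M - D by omega]
    rfl
  rw [h2]
  exact (Complex.abs_re_le_norm _).trans h1

lemma cv_coe {q : ℕ} {χ : DirichletCharacter ℂ q} (hχ : RealPrim q χ) (m : ℕ) :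
    χ (m : ZMod q) = ((cv χ m : ℝ) : ℂ) := by
  unfold cv
  rcases hχ.quad (m : ZMod q) with h | h | h <;> rw [h] <;> simp

lemma small_sum {q : ℕ} [NeZero q] {χ : DirichletCharacter ℂ q} (hχ1 : χ ≠ 1)
    (hχ : RealPrim q χ) (D : ℕ) :
    ‖((∑ d ∈ Icc 1 D, cv χ d / d : ℝ) : ℂ) - χ.LFunction 1‖ ≤ 2 * q * (((D + 1 : ℕ) : ℝ)⁻¹) := by
  have h1 := Pool.Agent.E8helper23.SZ.tail_one χ hχ1 D
  rw [norm_sub_rev] at h1
  have h2 : ∑ i ∈ range (D + 1), χ (i : ZMod q) * (((i : ℝ)⁻¹ : ℝ) : ℂ) =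
      ((∑ d ∈ Icc 1 D, cv χ d / d : ℝ) : ℂ) := by
    rw [Complex.ofReal_sum, Finset.sum_range_succ']
    have h3 : χ ((0 : ℕ) : ZMod q) * ((((0 : ℕ) : ℝ)⁻¹ : ℝ) : ℂ) = 0 := by simp
    rw [h3, add_zero]
    rw [Finset.range_eq_Ico, Finset.sum_Ico_add'
      (fun i : ℕ => χ (i : ZMod q) * (((i : ℝ)⁻¹ : ℝ) : ℂ)) 0 D 1]
    refine sum_congr ?_ fun i _ => ?_
    · ext i
      rw [mem_Ico, mem_Icc]
      omega
    · rw [cv_coe hχ, ← Complex.ofReal_mul, div_eq_mul_inv]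
  rw [← h2]
  exact h1

theorem t_A : S_A := by
  classical
  intro q _ χ hq hχ N hN
  have hχ1 : χ ≠ 1 := Pool.Agent.E8helper63.SZ.ne_one hq hχ
  obtain ⟨D, hDdef⟩ : ∃ D, D = Nat.sqrt N := ⟨_, rfl⟩
  have hD : 0 < D := by rw [hDdef]; exact Nat.sqrt_pos.2 hN
  have hDN : D ≤ N := by rw [hDdef]; exact Nat.sqrt_le_self N
  have hD0 : (0 : ℝ) < D := by exact_mod_cast hD
  have hD1 : (1 : ℝ) ≤ D := by exact_mod_cast hD
  have hN0 : (0 : ℝ) ≤ N := Nat.cast_nonneg N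
  have hq0 : (1 : ℝ) ≤ q := by exact_mod_cast hq.le
  have h1 : ∑ m ∈ Icc 1 N, tau χ m = ∑ d ∈ Icc 1 N, ((N / d : ℕ) : ℝ) * cv χ d := by
    rw [sum_congr rfl fun m hm => tau_eq_sum χ hm, sum_comm]
    refine sum_congr rfl fun d hd => ?_
    rw [← sum_filter, sum_const, card_mul N d, nsmul_eq_mul]
  have h2 : Icc 1 N = Icc 1 D ∪ Ioc D N := by
    ext d
    rw [mem_union, mem_Icc, mem_Icc, mem_Ioc]
    omega
  have h3 : Disjoint (Icc 1 D) (Ioc D N) := by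
    rw [disjoint_left]
    intro d h4 h5
    rw [mem_Icc] at h4
    rw [mem_Ioc] at h5
    omega
  rw [h1, h2, sum_union h3]
  -- the small divisors
  have h4 : |∑ d ∈ Icc 1 D, ((N / d : ℕ) : ℝ) * cv χ d - N * ∑ d ∈ Icc 1 D, cv χ d / d| ≤ D := by
    rw [mul_sum, ← sum_sub_distrib]
    have h5 : ∀ d ∈ Icc 1 D, |((N / d : ℕ) : ℝ) * cv χ d - N * (cv χ d / d)| ≤ 1 := by
      intro d hd
      have hd0 : (0 : ℝ) < d := by exact_mod_cast (mem_Icc.1 hd).1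
      have h6 : ((N / d : ℕ) : ℝ) ≤ N / d := Nat.cast_div_le
      have h7 : (N : ℝ) / d < ((N / d : ℕ) : ℝ) + 1 := by
        rw [div_lt_iff₀ hd0]
        have := Nat.lt_div_mul_add (a := N) (mem_Icc.1 hd).1
        have h8 : (N : ℝ) < ((N / d : ℕ) : ℝ) * d + d := by exact_mod_cast this
        linarith
      have h9 : ((N / d : ℕ) : ℝ) * cv χ d - (N : ℝ) * (cv χ d / d) =
        (((N / d : ℕ) : ℝ) - N / d) * cv χ d := by ring
      rw [h9, abs_mul]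
      have h10 : |((N / d : ℕ) : ℝ) - N / d| ≤ 1 := by
        rw [abs_le]
        constructor <;> linarith
      calc _ ≤ 1 * 1 := mul_le_mul h10 (cv_le hχ d) (abs_nonneg _) zero_le_one
        _ = 1 := one_mul 1
    refine (abs_sum_le_sum_abs _ _).trans ((sum_le_sum h5).trans ?_)
    rw [sum_const, Nat.card_Icc, nsmul_eq_mul, mul_one, Nat.add_sub_cancel]
  -- the large divisors
  have h5 : |∑ d ∈ Ioc D N, ((N / d : ℕ) : ℝ) * cv χ d| ≤ 2 * q * (N / D) := by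
    have h6 : ∀ d ∈ Ioc D N, ((N / d : ℕ) : ℝ) * cv χ d =
        ∑ e ∈ Icc 1 (N / D), if d ≤ N / e then cv χ d else 0 := by
      intro d hd
      rw [mem_Ioc] at hd
      rw [← sum_filter, sum_const, nsmul_eq_mul]
      congr 2
      have h7 : (Icc 1 (N / D)).filter (fun e => d ≤ N / e) = Icc 1 (N / d) := by
        ext e
        rw [mem_filter, mem_Icc, mem_Icc]
        constructor
        · rintro ⟨⟨h8, _⟩, h9⟩
          refine ⟨h8, ?_⟩
          rw [Nat.le_div_iff_mul_le (by omega)] at h9 ⊢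
          rwa [mul_comm]
        · rintro ⟨h8, h9⟩
          refine ⟨⟨h8, h9.trans (Nat.div_le_div_left hd.1.le hD)⟩, ?_⟩
          rw [Nat.le_div_iff_mul_le (by omega)] at h9 ⊢
          rwa [mul_comm]
      rw [h7, Nat.card_Icc, Nat.add_sub_cancel]
    rw [sum_congr rfl h6, sum_comm]
    have h8 : ∀ e ∈ Icc 1 (N / D),
        |∑ d ∈ Ioc D N, (if d ≤ N / e then cv χ d else 0)| ≤ 2 * q := by
      intro e he
      rw [← sum_filter]
      have h9 : (Ioc D N).filter (fun d => d ≤ N / e) = Ioc D (N / e) := by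
        ext d
        rw [mem_filter, mem_Ioc, mem_Ioc]
        have := Nat.div_le_self N e
        constructor
        · rintro ⟨⟨h10, _⟩, h11⟩
          exact ⟨h10, h11⟩
        · rintro ⟨h10, h11⟩
          exact ⟨⟨h10, by omega⟩, h11⟩
      rw [h9]
      exact interval_abs hχ1 D (N / e)
    refine (abs_sum_le_sum_abs _ _).trans ((sum_le_sum h8).trans ?_)
    rw [sum_const, Nat.card_Icc, nsmul_eq_mul, Nat.add_sub_cancel]
    have h9 : ((N / D : ℕ) : ℝ) ≤ N / D := Nat.cast_div_le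
    have h10 : (0 : ℝ) ≤ 2 * q := by positivity
    calc ((N / D : ℕ) : ℝ) * (2 * q) ≤ N / D * (2 * q) := mul_le_mul_of_nonneg_right h9 h10
      _ = 2 * q * (N / D) := by ring
  have h6 := small_sum hχ1 hχ D
  -- sizes
  obtain ⟨s, hs⟩ : ∃ s, s = √(N : ℝ) := ⟨_, rfl⟩
  have hs0 : 0 < s := by rw [hs]; exact Real.sqrt_pos.2 (by exact_mod_cast hN)
  have hss : s * s = N := by rw [hs]; exact Real.mul_self_sqrt hN0
  have hDs : (D : ℝ) ≤ s := by
    rw [hs, hDdef]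
    exact Real.nat_sqrt_le_real_sqrt
  have hsD : s < D + 1 := by
    have h7 : N < (D + 1) * (D + 1) := by rw [hDdef]; exact Nat.lt_succ_sqrt N
    have h8 : (N : ℝ) < ((D : ℝ) + 1) * (D + 1) := by exact_mod_cast h7
    nlinarith
  have e1 : (N : ℝ) * (2 * q * (((D + 1 : ℕ) : ℝ)⁻¹)) ≤ 2 * q * s := by
    have h7 : (N : ℝ) * (((D + 1 : ℕ) : ℝ)⁻¹) ≤ s := by
      rw [← div_eq_mul_inv, div_le_iff₀ (by positivity)]
      push_cast
      nlinarith
    nlinarith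
  have e2 : 2 * q * ((N : ℝ) / D) ≤ 4 * q * s := by
    have h7 : (N : ℝ) / D ≤ 2 * s := by
      rw [div_le_iff₀ hD0]
      nlinarith
    nlinarith
  rw [← hs]
  have e3 : (((∑ d ∈ Icc 1 D, ((N / d : ℕ) : ℝ) * cv χ d +
      ∑ d ∈ Ioc D N, ((N / d : ℕ) : ℝ) * cv χ d : ℝ)) : ℂ) - N * χ.LFunction 1 =
      ((∑ d ∈ Icc 1 D, ((N / d : ℕ) : ℝ) * cv χ d - N * ∑ d ∈ Icc 1 D, cv χ d / d : ℝ) : ℂ) +
      (N : ℂ) * (((∑ d ∈ Icc 1 D, cv χ d / d : ℝ) : ℂ) - χ.LFunction 1) +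
      ((∑ d ∈ Ioc D N, ((N / d : ℕ) : ℝ) * cv χ d : ℝ) : ℂ) := by
    rw [Complex.ofReal_add, Complex.ofReal_sub, Complex.ofReal_mul, Complex.ofReal_natCast]
    ring
  rw [e3]
  refine (norm_add_le _ _).trans ?_
  refine (add_le_add (norm_add_le _ _) le_rfl).trans ?_
  rw [Complex.norm_real, Complex.norm_real, norm_mul, Complex.norm_natCast, Real.norm_eq_abs,
    Real.norm_eq_abs]
  have e4 := mul_le_mul_of_nonneg_left h6 hN0
  have e5 : s ≤ q * s := by nlinarith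
  nlinarith

end Pool.Agent.E8helper26.GZ
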